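import Pool.Agent.TH639.SN.Def
import Pool.Agent.TH639.SG.Core
import Mathlib.Data.Set.Finite.Basic

/-!
The product over the closed points of affine space modulo `ℓ`.
-/

set_option autoImplicit false
set_option maxHeartbeats 1000000

open PowerSeries

namespace Pool.Agent.TH639.SN

open Pool.Agent.W313.Hyp Pool.Agent.W343.BSD
open Pool.Agent.TH639.SC
open Pool.Agent.TH639.SG (eq_one_of_pow red_char' muL muL_eq muL_eq_zero)

section points

theorem fdRes {F : Type} [Field F] (P : ClosedPt F) : Module.Finite F (Res P) :=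
  P.2.1.finite_adjoinRoot

theorem finRes {F : Type} [Field F] [Finite F] (P : ClosedPt F) : Finite (Res P) := by
  have := fdRes P
  exact Module.finite_of_finite F

theorem card_Res {F R : Type} [Field F] [Field R] (hq : ((Nat.card F : ℕ) : R) = 1)
    (P : ClosedPt F) : ((Nat.card (Res P) : ℕ) : R) = 1 := by
  exact card_RFR hq P

theorem deg_pos : ∀ (m : ℕ) (F : Type) [Field F] (z : SpacePt m F), 0 < deg m F z
  | 0, _, _, _ => one_pos
  | m + 1, _, _, z => Nat.mul_pos (MI.deg_pos z.1) (deg_pos m (Res z.1) z.2)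

theorem finite_le : ∀ (m : ℕ) (F : Type) [Field F] [Finite F] (n : ℕ),
    {z : SpacePt m F | deg m F z ≤ n}.Finite
  | 0, _, _, _, _ => (Set.finite_univ (α := Unit)).subset (Set.subset_univ _)
  | m + 1, F, _, _, n => by
    have h1 := finite_deg_le (F := F) n
    have h2 : ∀ P : ClosedPt F, {z : SpacePt m (Res P) | deg m (Res P) z ≤ n}.Finite := fun P => by
      have := finRes P
      exact finite_le m (Res P) n
    refine (Set.Finite.biUnion h1 fun P _ => (h2 P).image (Sigma.mk P)).subset ?_
    rintro ⟨P, z⟩ hz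
    have hz' : P.1.natDegree * deg m (Res P) z ≤ n := hz
    simp only [Set.mem_iUnion, Set.mem_image]
    exact ⟨P, (Nat.le_mul_of_pos_right _ (deg_pos m (Res P) z)).trans hz', z,
      (Nat.le_mul_of_pos_left _ (MI.deg_pos P)).trans hz', rfl⟩

variable {R : Type} [Field R] {ℓ : ℕ}

/-- the product of all `1 - X ^ (d deg z)` modulo `ℓ` -/
theorem zeta_space : ∀ (m : ℕ) (F : Type) [Field F] [Finite F], ((Nat.card F : ℕ) : R) = 1 →
    ∀ d : ℕ, 0 < d → eulerProd (fun z : SpacePt m F => d * deg m F z)
      (fun z => (1 - X ^ (d * deg m F z) : PowerSeries R)) = 1 - X ^ d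
  | 0, F, _, _, _, d, hd => by
    show eulerProd (ι := Unit) (fun _ => d * 1) (fun _ => (1 - X ^ (d * 1) : PowerSeries R)) = _
    rw [eulerProd_of_finset (ι := Unit) (d := fun _ => d * 1) (fun n => Set.toFinite _)
      (f := fun _ => (1 - X ^ (d * 1) : PowerSeries R)) (fun _ => one_sub_mod le_rfl)
      Finset.univ (fun i hi => absurd (Finset.mem_univ i) hi)]
    rw [Finset.univ_unique, Finset.prod_singleton, mul_one]
  | m + 1, F, _, _, hq, d, hd => by
    have hfin : ∀ P : ClosedPt F, Finite (Res P) := finRes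
    have h1 := eulerProd_sigma (R := R) (ι := ClosedPt F) (κ := fun P => SpacePt m (Res P))
      (d := fun P => d * P.1.natDegree) (e := fun P z => deg m (Res P) z)
      (finite_d hd) (fun P => Nat.mul_pos hd (MI.deg_pos P)) (fun P n => finite_le m (Res P) n)
      (fun P z => deg_pos m (Res P) z)
      (fun z => (1 - X ^ (d * z.1.1.natDegree * deg m (Res z.1) z.2) : PowerSeries R))
      (fun p => one_sub_mod le_rfl)
    have h2 : ∀ P : ClosedPt F, eulerProd (fun z => d * P.1.natDegree * deg m (Res P) z)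
        (fun z => (1 - X ^ (d * P.1.natDegree * deg m (Res P) z) : PowerSeries R)) =
        1 - X ^ (d * P.1.natDegree) := fun P =>
      zeta_space m (Res P) (card_Res hq P) (d * P.1.natDegree) (Nat.mul_pos hd (MI.deg_pos P))
    rw [funext h2] at h1
    rw [← zeta_line (R := R) hq hd, ← h1]
    show eulerProd (fun z : SpacePt (m + 1) F => d * (z.1.1.natDegree * deg m (Res z.1) z.2))
      (fun z => (1 - X ^ (d * (z.1.1.natDegree * deg m (Res z.1) z.2)) : PowerSeries R)) = _
    simp only [← mul_assoc]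
    rfl

end points

section red

variable {k : Type} [Field k] [Finite k] {A : Type} [CommRing A] {R : Type} [Field R] {m : ℕ}

omit [Finite k] in
theorem cp_mod (χ : MulChar k A) (G : MvPolynomial (Fin m) k) (z : SpacePt m k) :
    (X : PowerSeries A) ^ deg m k z ∣
      (1 - C (χ (normValue m k G z)) * X ^ deg m k z) - 1 := by
  rw [sub_right_comm, sub_self, zero_sub, dvd_neg]
  exact dvd_mul_left _ _

open Classical in
/-- the product of the character modulo `ℓ` -/
theorem red_cp (ρ : A →+* R) {χ : MulChar k A} (hρ : ∀ u : k, u ≠ 0 → ρ (χ u) = 1)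
    (G : MvPolynomial (Fin m) k) : PowerSeries.map ρ (charProduct χ m G) =
      eulerProd (fun z : SpacePt m k => deg m k z)
        (fun z => if normValue m k G z = 0 then 1 else 1 - X ^ deg m k z) := by
  show PowerSeries.map ρ (eulerProd _ _) = _
  rw [map_eulerProd (finite_le m k)]
  congr 1
  funext z
  rw [map_sub, map_one, map_mul, PowerSeries.map_C, map_pow, PowerSeries.map_X]
  split_ifs with h
  · rw [h, MulChar.map_zero, map_zero, map_zero, zero_mul, sub_zero]
  · rw [hρ _ h, PowerSeries.C.map_one, one_mul]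

open Classical in
/-- the zeta function of the hypersurface modulo `ℓ` -/
theorem red_zi (G : MvPolynomial (Fin m) k) :
    PowerSeries.map (Int.castRingHom R) (zetaInv m G) =
      eulerProd (fun z : SpacePt m k => deg m k z)
        (fun z => if normValue m k G z = 0 then 1 - X ^ deg m k z else 1) := by
  have h1 : zetaInv m G = eulerProd (fun z : SpacePt m k => deg m k z)
      (fun z => if normValue m k G z = 0 then 1 - X ^ deg m k z else 1) :=
    eulerProd_subtype (fun z : SpacePt m k => normValue m k G z = 0) (finite_le m k)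
      (f := fun z => (1 - X ^ deg m k z : PowerSeries ℤ)) (fun z _ => one_sub_mod le_rfl)
  rw [h1, map_eulerProd (finite_le m k)]
  congr 1
  funext z
  split_ifs with h
  · rw [map_sub, map_one, map_pow, PowerSeries.map_X]
  · rw [map_one]

/-- **the identity modulo a prime over `ℓ`** -/
theorem identityN (ρ : A →+* R) {χ : MulChar k A} (hρ : ∀ u : k, u ≠ 0 → ρ (χ u) = 1)
    (hq : ((Nat.card k : ℕ) : R) = 1) (G : MvPolynomial (Fin m) k) :
    PowerSeries.map ρ (charProduct χ m G) * PowerSeries.map (Int.castRingHom R) (zetaInv m G) =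
      1 - X := by
  classical
  rw [red_cp ρ hρ, red_zi, ← eulerProd_mul (finite_le m k)]
  · have h1 := zeta_space (R := R) m k hq 1 one_pos
    simp only [one_mul, pow_one] at h1
    rw [← h1]
    congr 1
    funext z
    split_ifs with h
    · rw [one_mul]
    · rw [mul_one]
  · intro z
    split_ifs with h
    · rw [sub_self]; exact dvd_zero _
    · exact one_sub_mod le_rfl
  · intro z
    split_ifs with h
    · exact one_sub_mod le_rfl
    · rw [sub_self]; exact dvd_zero _

end red

section final

variable {k : Type} [Field k] [Finite k] {A : Type} [CommRing A] [CharZero A]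
  [Algebra.IsIntegral ℤ A] {ℓ : ℕ}

/-- **the bound for the multiplicities, general form** -/
theorem bound_gen (hℓ : ℓ.Prime) (hd : ℓ ∣ Nat.card k - 1) {χ : MulChar k A} {a : ℕ}
    (hχ : χ ^ (ℓ ^ a) = 1) {ι : Type} (T : Finset ι) (m : ι → ℕ)
    (G : ∀ i, MvPolynomial (Fin (m i)) k) (E : Finset ℕ) {L : Polynomial ℤ}
    (hL : (∏ i ∈ T, zetaInv (m i) (G i)) * (L : PowerSeries ℤ) =
      ((∏ e ∈ E, (1 - Polynomial.C ((Nat.card k : ℤ) ^ e) * Polynomial.X) : Polynomial ℤ) :
        PowerSeries ℤ))
    {κ : Type} (Z : Finset κ) (α : κ → A)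
    (hZ : ∀ z ∈ Z, ∃ c j : ℕ, α z ^ (ℓ ^ j) = (Nat.card k : A) ^ c) (r : κ → ℕ)
    (H : Polynomial A)
    (hH : ∏ i ∈ T, charProduct χ (m i) (G i) =
      (((∏ z ∈ Z, (1 - Polynomial.C (α z) * Polynomial.X) ^ r z) * H : Polynomial A) :
        PowerSeries A)) :
    ∑ z ∈ Z, r z + E.card ≤ muL ℓ L + T.card := by
  classical
  have hF : Fact ℓ.Prime := ⟨hℓ⟩
  obtain ⟨R, _, _, ρ, hq⟩ := exists_hom (A := A) hℓ hd
  have h1 : PowerSeries.map ρ (∏ i ∈ T, charProduct χ (m i) (G i)) *
      PowerSeries.map (Int.castRingHom R) (∏ i ∈ T, zetaInv (m i) (G i)) =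
        (1 - X) ^ T.card := by
    rw [map_prod, map_prod, ← Finset.prod_mul_distrib,
      Finset.prod_congr rfl (fun i _ => identityN ρ (fun u hu => red_char' ρ hχ hu) hq (G i)),
      Finset.prod_const]
  have h2 : PowerSeries.map (Int.castRingHom R) (∏ i ∈ T, zetaInv (m i) (G i)) *
      ((L.map (Int.castRingHom R) : Polynomial R) : PowerSeries R) = (1 - X) ^ E.card := by
    have h3 := congrArg (PowerSeries.map (Int.castRingHom R)) hL
    rw [map_mul, ← Polynomial.polynomial_map_coe, ← Polynomial.polynomial_map_coe] at h3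
    rw [h3, Polynomial.map_prod]
    have h4 : ∀ e ∈ E, (1 - Polynomial.C ((Nat.card k : ℤ) ^ e) * Polynomial.X :
        Polynomial ℤ).map (Int.castRingHom R) = 1 - Polynomial.X := by
      intro e _
      rw [Polynomial.map_sub, Polynomial.map_one, Polynomial.map_mul, Polynomial.map_C,
        Polynomial.map_X, map_pow, eq_intCast, Int.cast_natCast, hq, one_pow, Polynomial.C_1,
        one_mul]
    rw [Finset.prod_congr rfl h4, Finset.prod_const, Polynomial.coe_pow, Polynomial.coe_sub,
      Polynomial.coe_one, Polynomial.coe_X]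
  have h5 : PowerSeries.map ρ (∏ i ∈ T, charProduct χ (m i) (G i)) * (1 - X) ^ E.card =
      ((L.map (Int.castRingHom R) : Polynomial R) : PowerSeries R) * (1 - X) ^ T.card := by
    rw [← h1, ← h2]
    ring
  have hone : (1 - X : PowerSeries R) ≠ 0 := by
    have := one_sub_ne (R := R) one_pos
    rwa [pow_one] at this
  have hL0 : L.map (Int.castRingHom R) ≠ 0 := by
    intro h
    rw [h, Polynomial.coe_zero, mul_zero] at h2
    exact pow_ne_zero _ hone h2.symm
  have hX : ((1 - Polynomial.X : Polynomial R) : PowerSeries R) = 1 - X := by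
    rw [Polynomial.coe_sub, Polynomial.coe_one, Polynomial.coe_X]
  rw [hH, ← hX, ← Polynomial.polynomial_map_coe, ← Polynomial.coe_pow, ← Polynomial.coe_pow,
    ← Polynomial.coe_mul, ← Polynomial.coe_mul] at h5
  have hpoly := Polynomial.coe_injective R h5
  rw [Polynomial.map_mul, Polynomial.map_prod] at hpoly
  have h6 : ∀ z ∈ Z, ((1 - Polynomial.C (α z) * Polynomial.X) ^ r z).map ρ =
      (1 - Polynomial.X) ^ r z := by
    intro z hz
    obtain ⟨c, j, hj⟩ := hZ z hz
    have h7 : ρ (α z) = 1 := by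
      apply eq_one_of_pow (ℓ := ℓ) (m := j)
      rw [← map_pow, hj, map_pow, map_natCast, hq, one_pow]
    rw [Polynomial.map_pow, Polynomial.map_sub, Polynomial.map_one, Polynomial.map_mul,
      Polynomial.map_C, Polynomial.map_X, h7, Polynomial.C_1, one_mul]
  rw [Finset.prod_congr rfl h6, Finset.prod_pow_eq_pow_sum] at hpoly
  obtain ⟨hX0, hXm⟩ := rm_zf (R := R) (ℓ := ℓ) one_pos
  rw [pow_one, padicValNat_one_right, pow_zero] at hXm
  rw [pow_one] at hX0
  have hne : (1 - Polynomial.X) ^ (∑ z ∈ Z, r z) * H.map ρ ≠ 0 := by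
    intro h
    rw [h, zero_mul] at hpoly
    exact mul_ne_zero hL0 (pow_ne_zero _ hX0) hpoly.symm
  have hrm := congrArg (Polynomial.rootMultiplicity 1) hpoly
  rw [rm_mul 1 hne (pow_ne_zero _ hX0), rm_mul 1 (left_ne_zero_of_mul hne)
    (right_ne_zero_of_mul hne), rm_pow 1 hX0, rm_pow 1 hX0, hXm, rm_mul 1 hL0 (pow_ne_zero _ hX0),
    rm_pow 1 hX0, hXm, muL_eq] at hrm
  omega

end final

end Pool.Agent.TH639.SN
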