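import Pool.Agent.TH639.SN.Proj
import Mathlib.LinearAlgebra.Eigenspace.Charpoly
import Mathlib.FieldTheory.IsAlgClosed.Spectrum

/-!
Representations with a Frobenius element whose characteristic polynomial is the product over the
closed points.
-/

set_option autoImplicit false
set_option maxHeartbeats 1000000

open PowerSeries

namespace Pool.Agent.TH639.SN

open Pool.Agent.W313.Hyp Pool.Agent.W343.BSD
open Pool.Agent.TH639.SC
open Pool.Agent.TH639.SG (eq_one_of_pow red_char' muL muL_eq muL_eq_zero)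

section alg

/-- a power series over a subring which is a polynomial over the extension -/
theorem exists_poly {A E : Type} [CommRing A] [CommRing E] {φ : A →+* E}
    (hφ : Function.Injective φ) {S : PowerSeries A} {P : Polynomial E}
    (h : PowerSeries.map φ S = (P : PowerSeries E)) :
    ∃ Q : Polynomial A, (Q : PowerSeries A) = S ∧ Q.map φ = P := by
  have h0 : ∀ n, φ (coeff n S) = P.coeff n := fun n => by
    rw [← Polynomial.coeff_coe, ← h, coeff_map]
  have h1 : ((trunc (P.natDegree + 1) S : Polynomial A) : PowerSeries A) = S := by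
    ext n
    rw [Polynomial.coeff_coe, coeff_trunc]
    split_ifs with hn
    · rfl
    · symm
      apply hφ
      rw [map_zero, h0]
      exact Polynomial.coeff_eq_zero_of_natDegree_lt (by omega)
  refine ⟨trunc (P.natDegree + 1) S, h1, ?_⟩
  apply Polynomial.coe_injective E
  rw [Polynomial.polynomial_map_coe, h1, h]

/-- A zero `1 / α` with `α` equal to one modulo `ℓ`. -/
theorem zero_red {A E R : Type} [CommRing A] [Field E] [CommRing R] {φ : A →+* E}
    (hφ : Function.Injective φ) (ρ : A →+* R) {α : A} (hα : φ α ≠ 0) (hρ : ρ α = 1)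
    {Q : Polynomial A} (h : (Q.map φ).eval (φ α)⁻¹ = 0) : (Q.map ρ).eval 1 = 0 := by
  have h5 : ∑ i ∈ Finset.range (Q.natDegree + 1), Q.coeff i * α ^ (Q.natDegree - i) = 0 := by
    apply hφ
    rw [map_zero, map_sum]
    have h6 : ∑ i ∈ Finset.range (Q.natDegree + 1), φ (Q.coeff i * α ^ (Q.natDegree - i)) =
        (φ α) ^ Q.natDegree * (Q.map φ).eval (φ α)⁻¹ := by
      rw [Polynomial.eval_map, Polynomial.eval₂_eq_sum_range, Finset.mul_sum]
      refine Finset.sum_congr rfl fun i hi => ?_
      have hi' : i ≤ Q.natDegree := Nat.lt_succ_iff.1 (Finset.mem_range.1 hi)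
      have h7 : (φ α) ^ Q.natDegree = (φ α) ^ (Q.natDegree - i) * (φ α) ^ i := by
        rw [← pow_add, Nat.sub_add_cancel hi']
      rw [map_mul, map_pow, h7, inv_pow]
      have h9 : (φ α) ^ i * ((φ α) ^ i)⁻¹ = 1 := mul_inv_cancel₀ (pow_ne_zero i hα)
      linear_combination (-(φ α) ^ (Q.natDegree - i) * φ (Q.coeff i)) * h9
    rw [h6, h, mul_zero]
  have h8 := congrArg ρ h5
  rw [map_sum, map_zero] at h8
  rw [Polynomial.eval_map, Polynomial.eval₂_eq_sum_range, ← h8]
  refine Finset.sum_congr rfl fun i _ => ?_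
  rw [map_mul, map_pow, hρ, one_pow, one_pow]

end alg

section rep

variable {E V : Type} [Field E] [IsAlgClosed E] [AddCommGroup V] [Module E V]
  [FiniteDimensional E V]

/-- An eigenvalue of a power. -/
theorem exists_eigenvalue {T : Module.End E V} {n : ℕ} (hn : 0 < n) {β : E}
    (h : ¬ IsUnit (algebraMap E (Module.End E V) β - T ^ n)) :
    ∃ α : E, α ^ n = β ∧ T.charpoly.eval α = 0 := by
  have h1 : β ∈ spectrum E (T ^ n) := spectrum.mem_iff.2 h
  rw [spectrum.map_pow_of_pos T hn] at h1
  obtain ⟨α, hα, rfl⟩ := h1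
  refine ⟨α, rfl, ?_⟩
  have h2 := Module.End.hasEigenvalue_iff_mem_spectrum.2 hα
  exact (Module.End.hasEigenvalue_iff_isRoot_charpoly T α).1 h2

omit [IsAlgClosed E] [FiniteDimensional E V] in
theorem not_unit_of_vec {T : Module.End E V} {β : E} {v : V} (hv : v ≠ 0) (h : T v = β • v) :
    ¬ IsUnit (algebraMap E (Module.End E V) β - T) := by
  intro hu
  have hinj := ((Module.End.isUnit_iff _).1 hu).1
  apply hv
  apply hinj
  rw [map_zero, LinearMap.sub_apply, Module.algebraMap_end_apply, h, sub_self]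

omit [IsAlgClosed E] [FiniteDimensional E V] in
theorem not_unit_of_fun {T : Module.End E V} {β : E} {f : V →ₗ[E] E} (hf : f ≠ 0)
    (h : ∀ v, f (T v) = β * f v) :
    ¬ IsUnit (algebraMap E (Module.End E V) β - T) := by
  intro hu
  have hsur := ((Module.End.isUnit_iff _).1 hu).2
  apply hf
  ext v
  obtain ⟨w, rfl⟩ := hsur v
  rw [LinearMap.sub_apply, Module.algebraMap_end_apply, map_sub, h, map_smul, smul_eq_mul,
    sub_self, LinearMap.zero_apply]

end rep

section main

variable {k : Type} [Field k] [Finite k] {ℓ : ℕ}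

/-- **The eigenvalues of Frobenius.** -/
theorem no_eigenvalue {E : Type} [Field E] [CharZero E] (hℓ : ℓ.Prime) (hd : ℓ ∣ Nat.card k - 1)
    {ι : Type} (J : Finset ι) (χ : ι → MulChar k (integralClosure ℤ E)) {a : ℕ}
    (hχ : ∀ i ∈ J, χ i ^ (ℓ ^ a) = 1) {m : ℕ} (F : MvPolynomial (Fin m) k)
    {w : ℕ} {L : Polynomial ℤ}
    (hL : zetaInv m F * (L : PowerSeries ℤ) =
      ((1 - Polynomial.C ((Nat.card k : ℤ) ^ w) * Polynomial.X : Polynomial ℤ) : PowerSeries ℤ))
    (hL1 : ¬ (ℓ : ℤ) ∣ L.eval 1) {P : Polynomial E}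
    (hP : PowerSeries.map (algebraMap (integralClosure ℤ E) E) (∏ i ∈ J, charProduct (χ i) m F) =
      (P : PowerSeries E)) {α : E} {c s : ℕ} (hα : α ^ (ℓ ^ s) = (Nat.card k : E) ^ c)
    (h0 : P.eval α⁻¹ = 0) : False := by
  classical
  have hFp : Fact ℓ.Prime := ⟨hℓ⟩
  have hs : 0 < ℓ ^ s := pow_pos hℓ.pos s
  have hk0 : (Nat.card k : E) ^ c ≠ 0 := by
    apply pow_ne_zero
    have : 0 < Nat.card k := Nat.card_pos
    exact_mod_cast this.ne'
  have hα0 : α ≠ 0 := by
    rintro rfl
    rw [zero_pow hs.ne'] at hα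
    exact hk0 hα.symm
  have hint : IsIntegral ℤ α := by
    apply IsIntegral.of_pow hs
    rw [hα]
    have : ((Nat.card k : E) ^ c) = algebraMap ℤ E ((Nat.card k : ℤ) ^ c) := by
      rw [map_pow, eq_intCast, Int.cast_natCast]
    rw [this]
    exact isIntegral_algebraMap
  obtain ⟨R, _, _, ρ, hq⟩ := exists_hom (A := integralClosure ℤ E) hℓ hd
  set φ : integralClosure ℤ E →+* E := algebraMap (integralClosure ℤ E) E with hφd
  have hφ : Function.Injective φ := Subtype.val_injective
  obtain ⟨Q, hQ, hQP⟩ := exists_poly hφ hP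
  have hαρ : ρ ⟨α, hint⟩ = 1 := by
    apply eq_one_of_pow (ℓ := ℓ) (m := s)
    rw [← map_pow]
    have : (⟨α, hint⟩ : integralClosure ℤ E) ^ (ℓ ^ s) =
        (Nat.card k : integralClosure ℤ E) ^ c := by
      apply hφ
      rw [map_pow, map_pow, map_natCast]
      exact hα
    rw [this, map_pow, map_natCast, hq, one_pow]
  have h1 : (Q.map ρ).eval 1 = 0 := by
    refine zero_red hφ ρ (α := ⟨α, hint⟩) hα0 hαρ ?_
    rw [hQP]
    exact h0
  -- the reduction
  have hone : (1 - X : PowerSeries R) ≠ 0 := by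
    have := one_sub_ne (R := R) one_pos
    rwa [pow_one] at this
  have h2 : PowerSeries.map (Int.castRingHom R) (zetaInv m F) *
      ((L.map (Int.castRingHom R) : Polynomial R) : PowerSeries R) = 1 - X := by
    have h3 := congrArg (PowerSeries.map (Int.castRingHom R)) hL
    rw [map_mul, ← Polynomial.polynomial_map_coe, ← Polynomial.polynomial_map_coe] at h3
    rw [h3, Polynomial.map_sub, Polynomial.map_one, Polynomial.map_mul, Polynomial.map_C,
      Polynomial.map_X, map_pow, eq_intCast, Int.cast_natCast, hq, one_pow, Polynomial.C_1,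
      one_mul, Polynomial.coe_sub, Polynomial.coe_one, Polynomial.coe_X]
  have h4 : ∀ i ∈ J, PowerSeries.map ρ (charProduct (χ i) m F) =
      ((L.map (Int.castRingHom R) : Polynomial R) : PowerSeries R) := by
    intro i hi
    have h5 := identityN ρ (fun u hu => red_char' ρ (hχ i hi) hu) hq F
    have hz : PowerSeries.map (Int.castRingHom R) (zetaInv m F) ≠ 0 := by
      intro h
      rw [h, mul_zero] at h5
      exact hone h5.symm
    apply mul_right_cancel₀ hz
    rw [h5, ← h2, mul_comm]
  have h6 : ((Q.map ρ : Polynomial R) : PowerSeries R) =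
      ((L.map (Int.castRingHom R) ^ J.card : Polynomial R) : PowerSeries R) := by
    rw [Polynomial.polynomial_map_coe, hQ, map_prod, Finset.prod_congr rfl h4, Finset.prod_const,
      Polynomial.coe_pow]
  rw [Polynomial.coe_injective R h6, Polynomial.eval_pow] at h1
  apply hL1
  have h7 := eq_zero_of_pow_eq_zero h1
  have h8 := Polynomial.eval_map_apply (Int.castRingHom R) (1 : ℤ) (p := L)
  rw [map_one] at h8
  rw [h8, eq_intCast] at h7
  exact (CharP.intCast_eq_zero_iff R ℓ _).1 h7

end main

end Pool.Agent.TH639.SN
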