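import Pool.Agent.TH639.SN.Main

/-!
The product over the closed points of projective space; multiplication of the form by a constant.
-/

set_option autoImplicit false
set_option maxHeartbeats 1000000

open PowerSeries

namespace Pool.Agent.TH639.SN

open Pool.Agent.W313.Hyp Pool.Agent.W343.BSD
open Pool.Agent.TH639.SC
open Pool.Agent.TH639.SG (eq_one_of_pow red_char' muL muL_eq muL_eq_zero)

/-- The dehomogenization: the first `j` variables are kept, the variable with the index `j` is one,
and the following variables are zero. -/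
noncomputable def chart {k : Type} [Field k] {n : ℕ} (j : ℕ) (F : MvPolynomial (Fin n) k) :
    MvPolynomial (Fin j) k :=
  MvPolynomial.aeval (fun i : Fin n => if h : (i : ℕ) < j then MvPolynomial.X ⟨i, h⟩ else
    if (i : ℕ) = j then 1 else 0) F

/-- The product over the closed points `z` of projective space of dimension `m` of the factors
`1 - χ(N F(z)) T ^ (deg z)`, for a form `F` whose degree is divisible by the order of `χ`:
projective space is the disjoint union of affine spaces of the dimensions `j = 0, ..., m`, the sets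
where the coordinate of index `j` is one and the following coordinates are zero. -/
noncomputable def projProduct {k A : Type} [Field k] [CommRing A] (χ : MulChar k A) (m : ℕ)
    (F : MvPolynomial (Fin (m + 1)) k) : PowerSeries A :=
  ∏ j ∈ Finset.range (m + 1), charProduct χ j (chart j F)

/-- The inverse of the zeta function of the projective hypersurface `F = 0`. -/
noncomputable def projZetaInv {k : Type} [Field k] (m : ℕ) (F : MvPolynomial (Fin (m + 1)) k) :
    PowerSeries ℤ :=
  ∏ j ∈ Finset.range (m + 1), zetaInv j (chart j F)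

theorem chart_C_mul {k : Type} [Field k] {n : ℕ} (j : ℕ) (e : k) (F : MvPolynomial (Fin n) k) :
    chart j (MvPolynomial.C e * F) = MvPolynomial.C e * chart j F := by
  unfold chart
  rw [map_mul, MvPolynomial.aeval_C]
  rfl

theorem specialize_C_mul {m : ℕ} {F : Type} [Field F] (P : ClosedPt F) (e : F)
    (G : MvPolynomial (Fin (m + 1)) F) :
    specialize P (MvPolynomial.C e * G) =
      MvPolynomial.C (algebraMap F (Res P) e) * specialize P G := by
  unfold specialize
  rw [map_mul, MvPolynomial.eval₂Hom_C]
  rfl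

theorem norm_mul_res {F : Type} [Field F] (P : ClosedPt F) (e : F) (n : ℕ) (x : Res P) :
    Algebra.norm F ((algebraMap F (Res P) e) ^ n * x) = e ^ (P.1.natDegree * n) *
      Algebra.norm F x := by
  have h1 : Module.finrank F (AdjoinRoot P.1) = P.1.natDegree :=
    (AdjoinRoot.powerBasis P.2.2.ne_zero).finrank
  rw [map_mul, ← map_pow]
  have h2 : Algebra.norm F ((algebraMap F (Res P)) (e ^ n)) = (e ^ n) ^ P.1.natDegree := by
    have := Algebra.norm_algebraMap (R := F) (S := AdjoinRoot P.1) (e ^ n)
    rw [h1] at this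
    exact this
  rw [h2, ← pow_mul, mul_comm n]

/-- multiplication by a constant -/
theorem normValue_C_mul : ∀ (m : ℕ) (F : Type) [Field F] (e : F) (G : MvPolynomial (Fin m) F)
    (z : SpacePt m F), normValue m F (MvPolynomial.C e * G) z = e ^ deg m F z * normValue m F G z
  | 0, F, _, e, G, _ => by
    show MvPolynomial.constantCoeff (MvPolynomial.C e * G) = e ^ 1 * MvPolynomial.constantCoeff G
    rw [map_mul, MvPolynomial.constantCoeff_C, pow_one]
  | m + 1, F, _, e, G, z => by
    show Algebra.norm F (normValue m (Res z.1) (specialize z.1 (MvPolynomial.C e * G)) z.2) =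
      e ^ (z.1.1.natDegree * deg m (Res z.1) z.2) *
        Algebra.norm F (normValue m (Res z.1) (specialize z.1 G) z.2)
    rw [specialize_C_mul, normValue_C_mul m (Res z.1), norm_mul_res]

section rescale

variable {ι A : Type} [CommRing A]

theorem rescale_eulerProd {d : ι → ℕ} (hfin : ∀ n, {i | d i ≤ n}.Finite) (c : A)
    (f : ι → PowerSeries A) :
    rescale c (eulerProd d f) = eulerProd d (fun i => rescale c (f i)) := by
  ext n
  rw [coeff_rescale, coeff_eulerProd hfin, coeff_eulerProd hfin, ← map_prod, coeff_rescale]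

theorem rescale_C' (c a : A) : rescale c (C a) = C a := by
  ext n
  rw [coeff_rescale, coeff_C]
  split_ifs with h
  · rw [h, pow_zero, one_mul]
  · rw [mul_zero]

variable {k : Type} [Field k] [Finite k]

/-- the product for a multiple of `G` -/
theorem charProduct_C_mul (χ : MulChar k A) {m : ℕ} (G : MvPolynomial (Fin m) k) (e : k) :
    charProduct χ m (MvPolynomial.C e * G) = rescale (χ e) (charProduct χ m G) := by
  show _ = rescale (χ e) (eulerProd _ _)
  rw [rescale_eulerProd (finite_le m k)]
  show eulerProd _ _ = _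
  congr 1
  funext z
  have h1 : (C (χ (e ^ deg m k z * normValue m k G z)) : PowerSeries A) =
      C (χ e) ^ deg m k z * C (χ (normValue m k G z)) := by
    rw [map_mul, map_mul, map_pow, map_pow]
  rw [map_sub, map_one, map_mul, map_pow, rescale_X, rescale_C', normValue_C_mul, h1, mul_pow]
  ring

theorem projProduct_C_mul (χ : MulChar k A) {m : ℕ} (F : MvPolynomial (Fin (m + 1)) k) (e : k) :
    projProduct χ m (MvPolynomial.C e * F) = rescale (χ e) (projProduct χ m F) := by
  unfold projProduct
  rw [map_prod]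
  refine Finset.prod_congr rfl fun j _ => ?_
  rw [chart_C_mul, charProduct_C_mul]

end rescale

section two

variable {A : Type} [CommRing A] [IsDomain A] {R : Type} [Field R]

/-- Two different zeros which are equal to one modulo `ℓ`. -/
theorem two_zeros (ρ : A →+* R) {a b : A} (hab : a ≠ b) (hb0 : b ≠ 0) (hb : ρ b = 1)
    {H₁ H₂ : Polynomial A}
    (h : (1 - Polynomial.C a * Polynomial.X) * H₁ = (1 - Polynomial.C b * Polynomial.X) * H₂) :
    (H₁.map ρ).eval 1 = 0 := by
  set K := FractionRing A
  set φ : A →+* K := algebraMap A K with hφ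
  have hinj : Function.Injective φ := IsFractionRing.injective A K
  have hb' : φ b ≠ 0 := fun h0 => hb0 (hinj (by rw [h0, map_zero]))
  have h1 := congrArg (fun p => (p.map φ).eval (φ b)⁻¹) h
  simp only [Polynomial.map_mul, Polynomial.map_sub, Polynomial.map_one, Polynomial.map_C,
    Polynomial.map_X, Polynomial.eval_mul, Polynomial.eval_sub, Polynomial.eval_one,
    Polynomial.eval_C, Polynomial.eval_X, mul_inv_cancel₀ hb', sub_self, zero_mul] at h1
  have h2 : (1 - φ a * (φ b)⁻¹) ≠ 0 := by
    intro h0
    apply hab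
    apply hinj
    have h3 : φ a * (φ b)⁻¹ = 1 := (sub_eq_zero.1 h0).symm
    calc φ a = φ a * (φ b)⁻¹ * φ b := by rw [mul_assoc, inv_mul_cancel₀ hb', mul_one]
      _ = φ b := by rw [h3, one_mul]
  have h4 : (H₁.map φ).eval (φ b)⁻¹ = 0 := (mul_eq_zero.1 h1).resolve_left h2
  have h5 : ∑ i ∈ Finset.range (H₁.natDegree + 1), H₁.coeff i * b ^ (H₁.natDegree - i) = 0 := by
    apply hinj
    rw [map_zero, map_sum]
    have h6 : ∑ i ∈ Finset.range (H₁.natDegree + 1), φ (H₁.coeff i * b ^ (H₁.natDegree - i)) =
        (φ b) ^ H₁.natDegree * (H₁.map φ).eval (φ b)⁻¹ := by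
      rw [Polynomial.eval_map, Polynomial.eval₂_eq_sum_range, Finset.mul_sum]
      refine Finset.sum_congr rfl fun i hi => ?_
      have hi' : i ≤ H₁.natDegree := Nat.lt_succ_iff.1 (Finset.mem_range.1 hi)
      have h7 : (φ b) ^ H₁.natDegree = (φ b) ^ (H₁.natDegree - i) * (φ b) ^ i := by
        rw [← pow_add, Nat.sub_add_cancel hi']
      rw [map_mul, map_pow, h7, inv_pow]
      have h9 : (φ b) ^ i * ((φ b) ^ i)⁻¹ = 1 := mul_inv_cancel₀ (pow_ne_zero i hb')
      linear_combination (-(φ b) ^ (H₁.natDegree - i) * φ (H₁.coeff i)) * h9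
    rw [h6, h4, mul_zero]
  have h8 := congrArg ρ h5
  rw [map_sum, map_zero] at h8
  rw [Polynomial.eval_map, Polynomial.eval₂_eq_sum_range]
  rw [← h8]
  refine Finset.sum_congr rfl fun i _ => ?_
  rw [map_mul, map_pow, hb, one_pow, one_pow]

end two

section final

variable {k : Type} [Field k] [Finite k] {A : Type} [CommRing A] [CharZero A]
  [Algebra.IsIntegral ℤ A] {ℓ : ℕ}

/-- **at most one class of twists** -/
theorem at_most_one [IsDomain A] (hℓ : ℓ.Prime) (hd : ℓ ∣ Nat.card k - 1) {χ : MulChar k A} {a : ℕ}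
    (hχ : χ ^ (ℓ ^ a) = 1) (m w : ℕ) (F : MvPolynomial (Fin (m + 1)) k) {L : Polynomial ℤ}
    (hL : projZetaInv m F * (L : PowerSeries ℤ) =
      ((∏ e ∈ Finset.range m, (1 - Polynomial.C ((Nat.card k : ℤ) ^ e) * Polynomial.X) :
        Polynomial ℤ) : PowerSeries ℤ))
    (hL1 : ¬ (ℓ : ℤ) ∣ L.eval 1) {u v : k} (hu : u ≠ 0) (hv : v ≠ 0) {H₁ H₂ : Polynomial A}
    (h₁ : projProduct χ m (MvPolynomial.C u * F) =
      (((1 - Polynomial.C ((Nat.card k : A) ^ w) * Polynomial.X) * H₁ : Polynomial A) :
        PowerSeries A))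
    (h₂ : projProduct χ m (MvPolynomial.C v * F) =
      (((1 - Polynomial.C ((Nat.card k : A) ^ w) * Polynomial.X) * H₂ : Polynomial A) :
        PowerSeries A)) : χ u = χ v := by
  classical
  by_contra hne
  have hF : Fact ℓ.Prime := ⟨hℓ⟩
  obtain ⟨R, _, _, ρ, hq⟩ := exists_hom (A := A) hℓ hd
  have hq0 : (Nat.card k : A) ^ w ≠ 0 := by
    apply pow_ne_zero
    have : 0 < Nat.card k := Nat.card_pos
    exact_mod_cast this.ne'
  have inv : ∀ u : k, u ≠ 0 → χ u * χ u⁻¹ = 1 := fun u hu => by
    rw [← map_mul, mul_inv_cancel₀ hu, map_one]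
  -- the function for `F`
  have hP : ∀ (u : k) (H : Polynomial A), u ≠ 0 → projProduct χ m (MvPolynomial.C u * F) =
      (((1 - Polynomial.C ((Nat.card k : A) ^ w) * Polynomial.X) * H : Polynomial A) :
        PowerSeries A) → projProduct χ m F =
      (((1 - Polynomial.C ((Nat.card k : A) ^ w * χ u⁻¹) * Polynomial.X) *
        H.comp (Polynomial.C (χ u⁻¹) * Polynomial.X) : Polynomial A) : PowerSeries A) := by
    intro u H hu h
    have h3 := congrArg (rescale (χ u⁻¹)) h
    rw [projProduct_C_mul, rescale_rescale, inv u hu, rescale_one, RingHom.id_apply] at h3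
    rw [h3]
    ext n
    rw [coeff_rescale, Polynomial.coeff_coe, Polynomial.coeff_coe]
    have h4 : (1 - Polynomial.C ((Nat.card k : A) ^ w * χ u⁻¹) * Polynomial.X) *
        H.comp (Polynomial.C (χ u⁻¹) * Polynomial.X) =
        ((1 - Polynomial.C ((Nat.card k : A) ^ w) * Polynomial.X) * H).comp
          (Polynomial.C (χ u⁻¹) * Polynomial.X) := by
      rw [Polynomial.mul_comp, Polynomial.sub_comp, Polynomial.one_comp, Polynomial.mul_comp,
        Polynomial.C_comp, Polynomial.X_comp, Polynomial.C_mul, mul_assoc (Polynomial.C _)]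
    rw [h4, Polynomial.comp_C_mul_X_coeff, mul_comm]
  have e1 := hP u H₁ hu h₁
  have e2 := hP v H₂ hv h₂
  have e3 := Polynomial.coe_injective A (e1.symm.trans e2)
  have hval : ∀ u : k, u ≠ 0 → ρ (χ u) = 1 := fun u hu => red_char' ρ hχ hu
  have hz := two_zeros ρ (a := (Nat.card k : A) ^ w * χ u⁻¹) (b := (Nat.card k : A) ^ w * χ v⁻¹)
    (fun h => by
      have h5 := mul_left_cancel₀ hq0 h
      apply hne
      calc χ u = χ u * (χ v * χ v⁻¹) := by rw [inv v hv, mul_one]
        _ = χ u * (χ v * χ u⁻¹) := by rw [h5]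
        _ = (χ u * χ u⁻¹) * χ v := by ring
        _ = χ v := by rw [inv u hu, one_mul])
    (fun h => by
      have h5 := (mul_eq_zero.1 h).resolve_left hq0
      have h6 := inv v hv
      rw [h5, mul_zero] at h6
      exact zero_ne_one h6)
    (by rw [map_mul, map_pow, map_natCast, hq, one_pow, one_mul, hval _ (inv_ne_zero hv)]) e3
  -- the reduction
  have h1 : PowerSeries.map ρ (projProduct χ m F) *
      PowerSeries.map (Int.castRingHom R) (projZetaInv m F) = (1 - X) ^ (m + 1) := by
    unfold projProduct projZetaInv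
    rw [map_prod, map_prod, ← Finset.prod_mul_distrib,
      Finset.prod_congr rfl (fun j _ => identityN ρ hval hq (chart j F)),
      Finset.prod_const, Finset.card_range]
  have h2 : PowerSeries.map (Int.castRingHom R) (projZetaInv m F) *
      ((L.map (Int.castRingHom R) : Polynomial R) : PowerSeries R) = (1 - X) ^ m := by
    have h3 := congrArg (PowerSeries.map (Int.castRingHom R)) hL
    rw [map_mul, ← Polynomial.polynomial_map_coe, ← Polynomial.polynomial_map_coe] at h3
    rw [h3, Polynomial.map_prod]
    have h4 : ∀ e ∈ Finset.range m, (1 - Polynomial.C ((Nat.card k : ℤ) ^ e) * Polynomial.X :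
        Polynomial ℤ).map (Int.castRingHom R) = 1 - Polynomial.X := by
      intro e _
      rw [Polynomial.map_sub, Polynomial.map_one, Polynomial.map_mul, Polynomial.map_C,
        Polynomial.map_X, map_pow, eq_intCast, Int.cast_natCast, hq, one_pow, Polynomial.C_1,
        one_mul]
    rw [Finset.prod_congr rfl h4, Finset.prod_const, Finset.card_range, Polynomial.coe_pow,
      Polynomial.coe_sub, Polynomial.coe_one, Polynomial.coe_X]
  have hone : (1 - X : PowerSeries R) ≠ 0 := by
    have := one_sub_ne (R := R) one_pos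
    rwa [pow_one] at this
  have h5 : PowerSeries.map ρ (projProduct χ m F) =
      ((L.map (Int.castRingHom R) : Polynomial R) : PowerSeries R) * (1 - X) := by
    apply mul_right_cancel₀ (pow_ne_zero m hone)
    rw [mul_assoc, ← pow_succ', ← h1, ← h2]
    ring
  have hX : ((1 - Polynomial.X : Polynomial R) : PowerSeries R) = 1 - X := by
    rw [Polynomial.coe_sub, Polynomial.coe_one, Polynomial.coe_X]
  rw [e1, ← hX, ← Polynomial.polynomial_map_coe, ← Polynomial.coe_mul, Polynomial.map_mul,
    Polynomial.map_sub, Polynomial.map_one, Polynomial.map_mul, Polynomial.map_C,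
    Polynomial.map_X, map_mul, map_pow, map_natCast, hq, one_pow, one_mul,
    hval _ (inv_ne_zero hu), Polynomial.C_1, one_mul] at h5
  have h6 := Polynomial.coe_injective R h5
  have hX0 : (1 - Polynomial.X : Polynomial R) ≠ 0 := by
    intro h0
    rw [h0, Polynomial.coe_zero] at hX
    exact hone hX.symm
  rw [mul_comm] at h6
  have h7 := mul_right_cancel₀ hX0 h6
  rw [h7] at hz
  apply hL1
  have h8 := Polynomial.eval_map_apply (Int.castRingHom R) (1 : ℤ) (p := L)
  rw [map_one] at h8
  rw [h8, eq_intCast] at hz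
  exact (CharP.intCast_eq_zero_iff R ℓ _).1 hz

end final

end Pool.Agent.TH639.SN
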