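import Pool.Agent.TH639.SN.Rep
import Mathlib.RingTheory.RootsOfUnity.AlgebraicallyClosed
import Mathlib.RingTheory.Polynomial.Cyclotomic.Roots
import Mathlib.NumberTheory.NumberField.Cyclotomic.Basic

/-!
Eigenvalues `q ^ c ζ` of Frobenius for all roots of unity `ζ`.
-/

set_option autoImplicit false
set_option maxHeartbeats 4000000
set_option synthInstance.maxHeartbeats 400000

open PowerSeries

namespace Pool.Agent.TH639.SN

open Pool.Agent.W313.Hyp Pool.Agent.W343.BSD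
open Pool.Agent.TH639.SC
open Pool.Agent.TH639.SG (eq_one_of_pow red_char' muL muL_eq muL_eq_zero)

section degree

variable {E : Type} [Field E] [CharZero E]

open IntermediateField in
/-- The degree of a root of unity of order prime to `N` over the field of the `N`-th roots of
unity. -/
theorem totient_le {N n D : ℕ} (hN : 0 < N) (hn : 0 < n) (hcop : N.Coprime n) {ω ζ y : E}
    (hω : IsPrimitiveRoot ω N) (hζ : IsPrimitiveRoot ζ n) (hy : ζ ∈ ℚ⟮ω⟯⟮y⟯)
    {p : Polynomial ℚ⟮ω⟯} (hp : p ≠ 0) (hd : p.natDegree ≤ D) (h : Polynomial.aeval y p = 0) :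
    n.totient ≤ D := by
  have hωi : IsIntegral ℚ ω := (hω.isIntegral hN).tower_top
  have hyi : IsIntegral ℚ⟮ω⟯ y := (isAlgebraic_iff_isIntegral.1 ⟨p, hp, h⟩)
  have hfd1 : FiniteDimensional ℚ ℚ⟮ω⟯ := adjoin.finiteDimensional hωi
  have hfd2 : FiniteDimensional ℚ⟮ω⟯ ℚ⟮ω⟯⟮y⟯ := adjoin.finiteDimensional hyi
  have hfd3 : FiniteDimensional ℚ ℚ⟮ω⟯⟮y⟯ := FiniteDimensional.trans ℚ ℚ⟮ω⟯ ℚ⟮ω⟯⟮y⟯
  have h1 : Module.finrank ℚ ℚ⟮ω⟯ = N.totient := by
    rw [adjoin.finrank hωi, ← Polynomial.cyclotomic_eq_minpoly_rat hω hN,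
      Polynomial.natDegree_cyclotomic]
  have h2 : Module.finrank ℚ⟮ω⟯ ℚ⟮ω⟯⟮y⟯ ≤ D := by
    rw [adjoin.finrank hyi]
    exact (Polynomial.natDegree_le_of_dvd (minpoly.dvd _ _ h) hp).trans hd
  have h3 : IsPrimitiveRoot (ω * ζ) (N * n) := by
    rw [hω.eq_orderOf, hζ.eq_orderOf, ← (Commute.all ω ζ).orderOf_mul_eq_mul_orderOf_of_coprime
      (by rwa [← hω.eq_orderOf, ← hζ.eq_orderOf])]
    exact IsPrimitiveRoot.orderOf _
  have hmem : ω * ζ ∈ ℚ⟮ω⟯⟮y⟯ :=
    mul_mem (IntermediateField.algebraMap_mem ℚ⟮ω⟯⟮y⟯ (⟨ω, mem_adjoin_simple_self ℚ ω⟩ : ℚ⟮ω⟯)) hy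
  have h4 : (minpoly ℚ (⟨ω * ζ, hmem⟩ : ℚ⟮ω⟯⟮y⟯)).natDegree ≤ _ := minpoly.natDegree_le _
  have h5 : minpoly ℚ (⟨ω * ζ, hmem⟩ : ℚ⟮ω⟯⟮y⟯) = minpoly ℚ (ω * ζ) := by
    have h6 := minpoly.algebraMap_eq (A := ℚ) (B := ℚ⟮ω⟯⟮y⟯) (B' := E)
      (algebraMap ℚ⟮ω⟯⟮y⟯ E).injective (⟨ω * ζ, hmem⟩ : ℚ⟮ω⟯⟮y⟯)
    rw [← h6]
    rfl
  rw [h5, ← Polynomial.cyclotomic_eq_minpoly_rat h3 (Nat.mul_pos hN hn),
    Polynomial.natDegree_cyclotomic, Nat.totient_mul hcop,
    ← Module.finrank_mul_finrank ℚ ℚ⟮ω⟯ ℚ⟮ω⟯⟮y⟯, h1] at h4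
  exact le_of_mul_le_mul_left (h4.trans (Nat.mul_le_mul_left _ h2)) (Nat.totient_pos.2 hN)

end degree

section coeffs

variable {k : Type} [Field k] {E : Type} [Field E]

/-- The coefficients are in every subring which contains the values of the character. -/
theorem coeff_mem (B : Subring E) (χ : MulChar k (integralClosure ℤ E))
    (hB : ∀ u : k, algebraMap (integralClosure ℤ E) E (χ u) ∈ B) (m : ℕ)
    (F : MvPolynomial (Fin m) k) (n : ℕ) :
    coeff n (PowerSeries.map (algebraMap (integralClosure ℤ E) E) (charProduct χ m F)) ∈ B := by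
  set φ := algebraMap (integralClosure ℤ E) E with hφ
  set p : PowerSeries (integralClosure ℤ E) → Prop := fun x => ∀ j, φ (coeff j x) ∈ B with hp
  have p1 : p 1 := by
    intro j
    rw [coeff_one]
    split_ifs
    · rw [map_one]; exact B.one_mem
    · rw [map_zero]; exact B.zero_mem
  have pm : ∀ x y, p x → p y → p (x * y) := by
    intro x y hx hy j
    rw [coeff_mul, map_sum]
    refine B.sum_mem fun i _ => ?_
    rw [map_mul]
    exact B.mul_mem (hx _) (hy _)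
  have h : p (∏ᶠ (z : SpacePt m k) (_ : deg m k z ≤ n),
      (1 - C (χ (normValue m k F z)) * X ^ deg m k z)) := by
    refine finprod_induction p p1 pm fun z => finprod_induction p p1 pm fun _ => ?_
    intro j
    rw [map_sub, map_sub, coeff_C_mul, coeff_X_pow, map_mul]
    refine B.sub_mem (p1 j) (B.mul_mem (hB _) ?_)
    split_ifs
    · rw [map_one]; exact B.one_mem
    · rw [map_zero]; exact B.zero_mem
  rw [coeff_map]
  unfold charProduct eulerProduct
  rw [coeff_mk]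
  exact h n

/-- A zero of a polynomial and its reduction. -/
theorem zero_red' {A E R : Type} [CommRing A] [Field E] [Field R] {φ : A →+* E}
    (hφ : Function.Injective φ) (ρ : A →+* R) {α : A} (hα : φ α ≠ 0) (hρ : ρ α ≠ 0)
    {Q : Polynomial A} (h : (Q.map φ).eval (φ α)⁻¹ = 0) : (Q.map ρ).eval (ρ α)⁻¹ = 0 := by
  have key : ∀ {S : Type} [Field S] (σ : A →+* S), σ α ≠ 0 →
      σ (∑ i ∈ Finset.range (Q.natDegree + 1), Q.coeff i * α ^ (Q.natDegree - i)) =
        (σ α) ^ Q.natDegree * (Q.map σ).eval (σ α)⁻¹ := by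
    intro S _ σ hσ
    rw [Polynomial.eval_map, Polynomial.eval₂_eq_sum_range, Finset.mul_sum, map_sum]
    refine Finset.sum_congr rfl fun i hi => ?_
    have hi' : i ≤ Q.natDegree := Nat.lt_succ_iff.1 (Finset.mem_range.1 hi)
    have h7 : (σ α) ^ Q.natDegree = (σ α) ^ (Q.natDegree - i) * (σ α) ^ i := by
      rw [← pow_add, Nat.sub_add_cancel hi']
    rw [map_mul, map_pow, h7, inv_pow]
    have h9 : (σ α) ^ i * ((σ α) ^ i)⁻¹ = 1 := mul_inv_cancel₀ (pow_ne_zero i hσ)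
    linear_combination (-(σ α) ^ (Q.natDegree - i) * σ (Q.coeff i)) * h9
  have h1 := key φ hα
  rw [h, mul_zero, map_eq_zero_iff φ hφ] at h1
  have h2 := key ρ hρ
  rw [h1, map_zero] at h2
  exact (mul_eq_zero.1 h2.symm).resolve_left (pow_ne_zero _ hρ)

end coeffs

section main

variable {k : Type} [Field k] [Finite k] {ℓ : ℕ}

open IntermediateField in
/-- **The eigenvalues of Frobenius, all roots of unity.** -/
theorem no_eigenvalue_all {E : Type} [Field E] [CharZero E] (hℓ : ℓ.Prime)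
    (hd : ℓ ∣ Nat.card k - 1) (χ : MulChar k (integralClosure ℤ E)) {a : ℕ}
    (hχ : χ ^ (ℓ ^ a) = 1) {ω : E} (hω : IsPrimitiveRoot ω (ℓ ^ a)) {m : ℕ}
    (F : MvPolynomial (Fin m) k) {w : ℕ} {L : Polynomial ℤ}
    (hL : zetaInv m F * (L : PowerSeries ℤ) =
      ((1 - Polynomial.C ((Nat.card k : ℤ) ^ w) * Polynomial.X : Polynomial ℤ) : PowerSeries ℤ))
    (hcop : ∀ n : ℕ, 0 < n → ¬ ℓ ∣ n → n.totient ≤ L.natDegree →
      IsCoprime (L.map (Int.castRingHom (ZMod ℓ))) (Polynomial.X ^ n - 1))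
    {P : Polynomial E}
    (hP : PowerSeries.map (algebraMap (integralClosure ℤ E) E) (charProduct χ m F) =
      (P : PowerSeries E)) (hPd : P.natDegree ≤ L.natDegree) {α : E} {c s : ℕ} (hs : 0 < s)
    (hα : α ^ s = (Nat.card k : E) ^ (c * s)) (h0 : P.eval α⁻¹ = 0) : False := by
  classical
  have hFp : Fact ℓ.Prime := ⟨hℓ⟩
  have hN : 0 < ℓ ^ a := pow_pos hℓ.pos a
  have hk0 : (Nat.card k : E) ≠ 0 := by
    have : 0 < Nat.card k := Nat.card_pos
    exact_mod_cast this.ne'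
  have hα0 : α ≠ 0 := by
    rintro rfl
    rw [zero_pow hs.ne'] at hα
    exact pow_ne_zero _ hk0 hα.symm
  -- the root of unity
  obtain ⟨ζ, hζ⟩ : ∃ ζ : E, α = (Nat.card k : E) ^ c * ζ :=
    ⟨α / (Nat.card k : E) ^ c, by field_simp⟩
  have hζs : ζ ^ s = 1 := by
    rw [hζ, mul_pow, ← pow_mul] at hα
    exact mul_left_cancel₀ (pow_ne_zero _ hk0) (by rw [hα, mul_one])
  have hM : 0 < orderOf ζ := orderOf_pos_iff.2 (isOfFinOrder_iff_pow_eq_one.2 ⟨s, hs, hζs⟩)
  obtain ⟨j, n, hn, hMn⟩ := Nat.exists_eq_pow_mul_and_not_dvd hM.ne' ℓ hℓ.ne_one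
  have hn0 : 0 < n := Nat.pos_of_ne_zero (by rintro rfl; exact hn (dvd_zero _))
  have hζ' : IsPrimitiveRoot (ζ ^ (ℓ ^ j)) n := (IsPrimitiveRoot.orderOf ζ).pow hM hMn
  -- reductions
  obtain ⟨R, _, _, ρ, hq⟩ := exists_hom (A := integralClosure ℤ E) hℓ hd
  set φ : integralClosure ℤ E →+* E := algebraMap (integralClosure ℤ E) E with hφd
  have hφ : Function.Injective φ := Subtype.val_injective
  obtain ⟨Q, hQ, hQP⟩ := exists_poly hφ hP
  have hone : (1 - X : PowerSeries R) ≠ 0 := by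
    have := one_sub_ne (R := R) one_pos
    rwa [pow_one] at this
  have h2 : PowerSeries.map (Int.castRingHom R) (zetaInv m F) *
      ((L.map (Int.castRingHom R) : Polynomial R) : PowerSeries R) = 1 - X := by
    have h3 := congrArg (PowerSeries.map (Int.castRingHom R)) hL
    rw [map_mul, ← Polynomial.polynomial_map_coe, ← Polynomial.polynomial_map_coe] at h3
    rw [h3, Polynomial.map_sub, Polynomial.map_one, Polynomial.map_mul, Polynomial.map_C,
      Polynomial.map_X, map_pow, eq_intCast, Int.cast_natCast, hq, one_pow, Polynomial.C_1,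
      one_mul, Polynomial.coe_sub, Polynomial.coe_one, Polynomial.coe_X]
  have h4 : PowerSeries.map ρ (charProduct χ m F) =
      ((L.map (Int.castRingHom R) : Polynomial R) : PowerSeries R) := by
    have h5 := identityN ρ (fun u hu => red_char' ρ hχ hu) hq F
    have hz : PowerSeries.map (Int.castRingHom R) (zetaInv m F) ≠ 0 := by
      intro h
      rw [h, mul_zero] at h5
      exact hone h5.symm
    apply mul_right_cancel₀ hz
    rw [h5, ← h2, mul_comm]
  have h6 : Q.map ρ = L.map (Int.castRingHom R) := by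
    apply Polynomial.coe_injective R
    rw [Polynomial.polynomial_map_coe, hQ, h4]
  have hL0 : L.map (Int.castRingHom R) ≠ 0 := by
    intro h
    rw [h, Polynomial.coe_zero, mul_zero] at h2
    exact hone h2.symm
  have hP0 : P ≠ 0 := by
    rintro rfl
    apply hL0
    rw [← h6]
    have : Q = 0 := Polynomial.map_injective φ hφ (by rw [hQP, Polynomial.map_zero])
    rw [this, Polynomial.map_zero]
  -- the degree
  have hval : ∀ u : k, φ (χ u) ∈ ℚ⟮ω⟯ := by
    intro u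
    by_cases hu : u = 0
    · rw [hu, MulChar.map_zero, map_zero]; exact zero_mem _
    · have h7 : (φ (χ u)) ^ (ℓ ^ a) = 1 := by
        rw [← map_pow, ← MulChar.pow_apply' χ hN.ne', hχ,
          MulChar.one_apply (isUnit_iff_ne_zero.2 hu), map_one]
      obtain ⟨i, -, hi⟩ := hω.eq_pow_of_pow_eq_one h7
      rw [← hi]
      exact pow_mem (mem_adjoin_simple_self ℚ ω) i
  have hlift : P ∈ Polynomial.lifts (algebraMap ℚ⟮ω⟯ E) := by
    rw [Polynomial.lifts_iff_coeff_lifts]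
    intro i
    have h7 := coeff_mem ℚ⟮ω⟯.toSubalgebra.toSubring χ hval m F i
    rw [hP, Polynomial.coeff_coe] at h7
    exact ⟨⟨P.coeff i, h7⟩, rfl⟩
  obtain ⟨p, hp⟩ := (Polynomial.mem_lifts _).1 hlift
  have hp0 : p ≠ 0 := by
    rintro rfl
    rw [Polynomial.map_zero] at hp
    exact hP0 hp.symm
  have hpd : p.natDegree ≤ L.natDegree := by
    rw [← Polynomial.natDegree_map (algebraMap ℚ⟮ω⟯ E), hp]
    exact hPd
  have hroot : Polynomial.aeval α⁻¹ p = 0 := by
    rw [Polynomial.aeval_def, ← Polynomial.eval_map, hp, h0]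
  have hζmem : ζ ^ (ℓ ^ j) ∈ ℚ⟮ω⟯⟮α⁻¹⟯ := by
    apply pow_mem
    have h7 : ζ = (α⁻¹)⁻¹ * ((Nat.card k : E) ^ c)⁻¹ := by
      rw [inv_inv, hζ]
      field_simp
    rw [h7]
    exact mul_mem (inv_mem (mem_adjoin_simple_self _ _)) (inv_mem (pow_mem (_root_.natCast_mem _ _) _))
  have htot := totient_le hN hn0 ((Nat.Prime.coprime_iff_not_dvd hℓ).2 hn |>.pow_left a) hω hζ'
    hζmem hp0 hpd hroot
  -- the reduction of the eigenvalue
  have hζi : IsIntegral ℤ ζ := IsIntegral.of_pow hs (by rw [hζs]; exact isIntegral_one)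
  have hki : IsIntegral ℤ (Nat.card k : E) := by
    have h7 := isIntegral_algebraMap (R := ℤ) (A := E) (x := (Nat.card k : ℤ))
    rwa [eq_intCast, Int.cast_natCast] at h7
  have hαi : IsIntegral ℤ α := by
    rw [hζ]
    exact (hki.pow c).mul hζi
  have hz1 : ρ ⟨α, hαi⟩ = ρ ⟨ζ, hζi⟩ := by
    have h7 : (⟨α, hαi⟩ : integralClosure ℤ E) =
        (Nat.card k : integralClosure ℤ E) ^ c * ⟨ζ, hζi⟩ := by
      apply hφ
      rw [map_mul, map_pow, map_natCast]
      exact hζ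
    rw [h7, map_mul, map_pow, map_natCast, hq, one_pow, one_mul]
  have hzn : ρ ⟨α, hαi⟩ ^ n = 1 := by
    apply eq_one_of_pow (ℓ := ℓ) (m := j)
    rw [hz1, ← pow_mul, mul_comm n, ← hMn, ← map_pow]
    have h7 : (⟨ζ, hζi⟩ : integralClosure ℤ E) ^ orderOf ζ = 1 := by
      apply hφ
      rw [map_pow, map_one]
      exact pow_orderOf_eq_one ζ
    rw [h7, map_one]
  have hz0 : ρ ⟨α, hαi⟩ ≠ 0 := by
    intro h
    rw [h, zero_pow hn0.ne'] at hzn
    exact zero_ne_one hzn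
  have h8 := zero_red' hφ ρ (α := ⟨α, hαi⟩) hα0 hz0 (Q := Q) (by rw [hQP]; exact h0)
  rw [h6] at h8
  have h9 := (hcop n hn0 hn htot).map (Polynomial.mapRingHom (ZMod.castHom dvd_rfl R))
  rw [Polynomial.coe_mapRingHom, Polynomial.map_map, Polynomial.map_sub, Polynomial.map_pow,
    Polynomial.map_X, Polynomial.map_one] at h9
  have h10 : (ZMod.castHom dvd_rfl R : ZMod ℓ →+* R).comp (Int.castRingHom (ZMod ℓ)) =
      Int.castRingHom R := RingHom.ext_int _ _
  rw [h10] at h9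
  obtain ⟨u, v, huv⟩ := h9
  have h11 := congrArg (Polynomial.eval (ρ ⟨α, hαi⟩)⁻¹) huv
  rw [Polynomial.eval_add, Polynomial.eval_mul, Polynomial.eval_mul, h8, mul_zero, zero_add,
    Polynomial.eval_sub, Polynomial.eval_pow, Polynomial.eval_X, inv_pow, hzn, inv_one,
    Polynomial.eval_one, sub_self, mul_zero] at h11
  exact zero_ne_one h11

end main

end Pool.Agent.TH639.SN
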