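import Pool.Agent.TH639.SC.Bnd

/-!
The closed points of affine space over a finite field, and the `L`-functions of Kummer sheaves.
-/

set_option autoImplicit false
set_option maxHeartbeats 1000000

namespace Pool.Agent.TH639.SN

/-- The closed points of the affine line over the field `F`: monic irreducible polynomials. -/
abbrev ClosedPt (F : Type) [Field F] : Type := {P : Polynomial F // P.Monic ∧ Irreducible P}

/-- The residue field of the closed point `P` of the line over `F`. -/
def Res {F : Type} [Field F] (P : ClosedPt F) : Type := AdjoinRoot P.1

noncomputable instance resField {F : Type} [Field F] (P : ClosedPt F) : Field (Res P) :=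
  @AdjoinRoot.instField F _ P.1 ⟨P.2.2⟩

noncomputable instance resAlgebra {F : Type} [Field F] (P : ClosedPt F) : Algebra F (Res P) :=
  inferInstanceAs (Algebra F (AdjoinRoot P.1))

/-- The coordinate of the closed point `P` of the line, an element of the residue field. -/
noncomputable def coord {F : Type} [Field F] (P : ClosedPt F) : Res P := AdjoinRoot.root P.1

/-- The closed points of affine space of dimension `m` over `F`: for `m = 0` there is one point; a
closed point in dimension `m + 1` is a closed point `P` of the line (its first coordinate) together
with a closed point of affine space of dimension `m` over the residue field of `P`. -/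
def SpacePt : (m : ℕ) → (F : Type) → [Field F] → Type
  | 0, _, _ => Unit
  | m + 1, F, _ => Σ P : ClosedPt F, SpacePt m (Res P)

/-- The degree of a closed point. -/
noncomputable def deg : (m : ℕ) → (F : Type) → [Field F] → SpacePt m F → ℕ
  | 0, _, _, _ => 1
  | m + 1, _, _, z => z.1.1.natDegree * deg m (Res z.1) z.2

/-- The polynomial in the remaining variables over the residue field of `P`, if the first variable is
replaced by the coordinate of `P`. -/
noncomputable def specialize {m : ℕ} {F : Type} [Field F] (P : ClosedPt F) :
    MvPolynomial (Fin (m + 1)) F →+* MvPolynomial (Fin m) (Res P) :=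
  MvPolynomial.eval₂Hom (MvPolynomial.C.comp (algebraMap F (Res P)))
    (Fin.cons (MvPolynomial.C (coord P)) MvPolynomial.X)

/-- The norm to `F` of the value of the polynomial `G` at a closed point. -/
noncomputable def normValue : (m : ℕ) → (F : Type) → [Field F] → MvPolynomial (Fin m) F →
    SpacePt m F → F
  | 0, _, _, G, _ => MvPolynomial.constantCoeff G
  | m + 1, F, _, G, z => Algebra.norm F (normValue m (Res z.1) (specialize z.1 G) z.2)

/-- The Euler product: its coefficient of index `n` is that of the product of the factors of degree
at most `n`. -/
noncomputable def eulerProduct {ι A : Type} [CommRing A] (d : ι → ℕ) (f : ι → PowerSeries A) :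
    PowerSeries A :=
  PowerSeries.mk fun n => PowerSeries.coeff n (∏ᶠ (i : ι) (_ : d i ≤ n), f i)

/-- The product over the closed points `z` of affine space of dimension `m` over `k` of the factors
`1 - χ(N G(z)) T ^ (deg z)`, where `N G(z)` is the norm to `k` of the value of `G` at `z` and
`χ(0) = 0`. It is the inverse of the `L`-function of the Kummer sheaf of `χ` for `G`. -/
noncomputable def charProduct {k A : Type} [Field k] [CommRing A] (χ : MulChar k A) (m : ℕ)
    (G : MvPolynomial (Fin m) k) : PowerSeries A :=
  eulerProduct (fun z : SpacePt m k => deg m k z)
    (fun z => 1 - PowerSeries.C (χ (normValue m k G z)) * PowerSeries.X ^ deg m k z)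

/-- The closed points of the affine hypersurface `G = 0`. -/
def HypPt {k : Type} [Field k] (m : ℕ) (G : MvPolynomial (Fin m) k) : Type :=
  {z : SpacePt m k // normValue m k G z = 0}

/-- The inverse of the zeta function of the affine hypersurface `G = 0`. -/
noncomputable def zetaInv {k : Type} [Field k] (m : ℕ) (G : MvPolynomial (Fin m) k) :
    PowerSeries ℤ :=
  eulerProduct (fun z : HypPt m G => deg m k z.1) (fun z => 1 - PowerSeries.X ^ deg m k z.1)

end Pool.Agent.TH639.SN
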